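import Pool.Agent.Helper66_KF.Stmts

/-!
# Squad KF, row ST2: one central involution
-/

open scoped BigOperators

noncomputable section

namespace Pool.Agent.PP.KF.H97

open Pool.Agent.Helper51_AWC Pool.Agent.Helper79_WRA Pool.Agent.PP Pool.Agent.PP.KF

/-- four positive integers with two sign functions -/
theorem comb4 {w x y z w2 x2 y2 z2 d1 d2 d3 d4 s1 s2 s3 s4 : ℤ}
    (hw : 0 < w) (hx : 0 < x) (hy : 0 < y) (hz : 0 < z)
    (e1 : w2 = w ^ 2) (e2 : x2 = x ^ 2) (e3 : y2 = y ^ 2) (e4 : z2 = z ^ 2)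
    (hd1 : d1 = 1 ∨ d1 = -1) (hd2 : d2 = 1 ∨ d2 = -1) (hd3 : d3 = 1 ∨ d3 = -1)
    (hd4 : d4 = 1 ∨ d4 = -1)
    (hs1 : s1 = 1 ∨ s1 = -1) (hs2 : s2 = 1 ∨ s2 = -1) (hs3 : s3 = 1 ∨ s3 = -1)
    (hs4 : s4 = 1 ∨ s4 = -1)
    (h1 : d1 * w + d2 * x + d3 * y + d4 * z = 0)
    (h2 : d1 * (s1 * w) + d2 * (s2 * x) + d3 * (s3 * y) + d4 * (s4 * z) = 0)
    (h3 : s1 * w2 + s2 * x2 + s3 * y2 + s4 * z2 = 0) : x = w ∧ y = w ∧ z = w := by
  have p1 : 0 < w2 := by rw [e1]; positivity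
  have p2 : 0 < x2 := by rw [e2]; positivity
  have p3 : 0 < y2 := by rw [e3]; positivity
  have p4 : 0 < z2 := by rw [e4]; positivity
  have key : (w = x ∧ y = z ∧ w2 + x2 = y2 + z2) ∨ (w = y ∧ x = z ∧ w2 + y2 = x2 + z2) ∨
      (w = z ∧ x = y ∧ w2 + z2 = x2 + y2) := by
    rcases hs1 with rfl | rfl <;> rcases hs2 with rfl | rfl <;> rcases hs3 with rfl | rfl <;>
      rcases hs4 with rfl | rfl <;> rcases hd1 with rfl | rfl <;> rcases hd2 with rfl | rfl <;>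
      rcases hd3 with rfl | rfl <;> rcases hd4 with rfl | rfl <;> clear e1 e2 e3 e4 <;> omega
  subst e1 e2 e3 e4
  rcases key with ⟨a, b, c⟩ | ⟨a, b, c⟩ | ⟨a, b, c⟩
  · subst a b
    have h : y = w := by
      have : y ^ 2 = w ^ 2 := by linarith
      exact (sq_eq_sq₀ hy.le hw.le).1 this
    exact ⟨rfl, h, h⟩
  · subst a b
    have h : x = w := by
      have : x ^ 2 = w ^ 2 := by linarith
      exact (sq_eq_sq₀ hx.le hw.le).1 this
    exact ⟨h, rfl, h⟩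
  · subst a b
    have h : x = w := by
      have : x ^ 2 = w ^ 2 := by linarith
      exact (sq_eq_sq₀ hx.le hw.le).1 this
    exact ⟨h, h, rfl⟩

/-- a central involution acts as a sign -/
theorem irr_sign {G : Type} [Group G] {χ : G → ℂ} (hχ : χ ∈ Irr G) {u : G}
    (hu : u ∈ Subgroup.center G) (h2 : u * u = 1) :
    ∃ s : ℤ, (s = 1 ∨ s = -1) ∧ χ u = s * χ 1 := by
  obtain ⟨d, hd, hd'⟩ := irr_one hχ
  obtain ⟨n, ρ, hρ, rfl⟩ := hχ
  obtain ⟨c, hc⟩ := schur_scalar ρ (ρ u) (fun g => by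
    have h : u * g = g * u := (Subgroup.mem_center_iff.1 hu g).symm
    change ρ u * ρ g = ρ g * ρ u
    rw [← map_mul, ← map_mul, h])
  have hn : (n : ℂ) = d := by
    rw [← hd']
    simp
  have hn0 : n ≠ 0 := by
    rintro rfl
    have : (d : ℂ) = 0 := by rw [← hn]; simp
    have h0 : d = 0 := by exact_mod_cast this
    omega
  have hcc : c * c = 1 := by
    have h : ρ u * ρ u = 1 := by rw [← map_mul, h2, map_one]
    rw [hc] at h
    have : NeZero n := ⟨hn0⟩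
    have h' := congrArg (fun T : (Fin n → ℂ) →ₗ[ℂ] (Fin n → ℂ) => T (fun _ => 1) 0) h
    simpa [Module.End.mul_apply] using h'
  have htr : ρ.character u = c * ρ.character 1 := by
    have : ρ.character u = LinearMap.trace ℂ _ (ρ u) := rfl
    rw [this, hc, map_smul, smul_eq_mul]
    have h1 : ρ.character 1 = LinearMap.trace ℂ _ (ρ 1) := rfl
    rw [h1, map_one]
    rfl
  rcases mul_self_eq_one_iff.1 hcc with h | h
  · exact ⟨1, Or.inl rfl, by rw [htr, h]; simp⟩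
  · exact ⟨-1, Or.inr rfl, by rw [htr, h]; simp⟩

theorem st2 (lk : LkStmt) (lin : LinStmt) : St2Stmt := by
  intro M _ hM G _ _ u v hu hv huv hcu e he hB b hb hbe ⟨a', hHb⟩
  obtain ⟨hcard, d, hd, hz⟩ := lk M hM G e he hB v hv b hb hbe a' hHb
  have h1 := hz 1 (Subgroup.one_mem _) (one_mul 1) (fun h => hv.ne h.symm)
  have h2 := hz u hcu hu.sq huv
  have h3 := lin M hM G e he.1 u hu
  classical
  have hfin : (IrrE M e).Finite := Set.finite_of_ncard_ne_zero (by rw [hcard]; norm_num)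
  obtain ⟨S, hS⟩ : ∃ S : Finset (G → ℂ), (S : Set (G → ℂ)) = IrrE M e :=
    ⟨hfin.toFinset, hfin.coe_toFinset⟩
  have hS4 : S.card = 4 := by
    rw [← hcard, ← hS, Set.ncard_coe_finset]
  have hmem : ∀ χ ∈ S, χ ∈ IrrE M e := fun χ h => by rw [← hS]; exact h
  have ui : u⁻¹ = u := inv_eq_of_mul_eq_one_right hu.sq
  have h3' : ∑ᶠ χ ∈ IrrE M e, χ 1 * χ u = 0 := by
    have h : (Nat.card G : ℂ)⁻¹ * ∑ᶠ χ ∈ IrrE M e, χ 1 * χ u⁻¹ = 0 := h3
    rw [ui] at h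
    have hc : (Nat.card G : ℂ)⁻¹ ≠ 0 := inv_ne_zero (by exact_mod_cast Nat.card_pos.ne')
    exact (mul_eq_zero.1 h).resolve_left hc
  rw [← hS, finsum_mem_coe_finset] at h1 h2 h3'
  obtain ⟨w, x, y, z, hwx, hwy, hwz, hxy, hxz, hyz, rfl⟩ := Finset.card_eq_four.1 hS4
  have sum4 : ∀ f : (G → ℂ) → ℂ, ∑ i ∈ ({w, x, y, z} : Finset (G → ℂ)), f i =
      f w + f x + f y + f z := by
    intro f
    rw [Finset.sum_insert (by simp [hwx, hwy, hwz]), Finset.sum_insert (by simp [hxy, hxz]),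
      Finset.sum_insert (by simp [hyz]), Finset.sum_singleton]
    ring
  rw [sum4] at h1 h2 h3'
  have mw : w ∈ IrrE M e := hmem w (by simp)
  have mx : x ∈ IrrE M e := hmem x (by simp)
  have my : y ∈ IrrE M e := hmem y (by simp)
  have mz : z ∈ IrrE M e := hmem z (by simp)
  obtain ⟨nw, pw, ew⟩ := irr_one mw.1
  obtain ⟨nx, px, ex⟩ := irr_one mx.1
  obtain ⟨ny, py, ey⟩ := irr_one my.1
  obtain ⟨nz, pz, ez⟩ := irr_one mz.1
  obtain ⟨sw, tw, fw⟩ := irr_sign mw.1 hcu hu.sq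
  obtain ⟨sx, tx, fx⟩ := irr_sign mx.1 hcu hu.sq
  obtain ⟨sy, ty, fy⟩ := irr_sign my.1 hcu hu.sq
  obtain ⟨sz, tz, fz⟩ := irr_sign mz.1 hcu hu.sq
  rw [ew, ex, ey, ez] at h1
  rw [fw, fx, fy, fz, ew, ex, ey, ez] at h2 h3'
  have hall := comb4 (w := (nw : ℤ)) (x := (nx : ℤ)) (y := (ny : ℤ)) (z := (nz : ℤ))
    (by exact_mod_cast pw) (by exact_mod_cast px) (by exact_mod_cast py) (by exact_mod_cast pz)
    rfl rfl rfl rfl (hd w mw).1 (hd x mx).1 (hd y my).1 (hd z mz).1 tw tx ty tz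
    (by exact_mod_cast h1) (by exact_mod_cast h2)
    (by
      have : (sw : ℂ) * (nw : ℂ) ^ 2 + sx * (nx : ℂ) ^ 2 + sy * (ny : ℂ) ^ 2 +
          sz * (nz : ℂ) ^ 2 = 0 := by
        rw [← h3']
        ring
      exact_mod_cast this)
  obtain ⟨qx, qy, qz⟩ := hall
  have qx' : nx = nw := by exact_mod_cast qx
  have qy' : ny = nw := by exact_mod_cast qy
  have qz' : nz = nw := by exact_mod_cast qz
  refine ⟨nw, hcard, ?_, ?_, ?_⟩
  · intro θ hθ
    rw [← hS] at hθ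
    simp only [Finset.coe_insert, Finset.coe_singleton, Set.mem_insert_iff,
      Set.mem_singleton_iff] at hθ
    rcases hθ with rfl | rfl | rfl | rfl
    · exact ew
    · rw [ex, qx']
    · rw [ey, qy']
    · rw [ez, qz']
  · have h := (hd w mw).2.1
    rw [ew] at h
    exact h
  · have h := (hd w mw).2.2
    rw [ew] at h
    exact h

end Pool.Agent.PP.KF.H97
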